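import Pool.Agent.H16.ZW.Targets

/-! Module EE: formal exponential polynomials. -/

open Filter Topology

namespace Pool.Agent.H33.ZW

open Pool.Agent.H16.ZW

section

variable {K : Type} [Field K]

theorem DD_coeff (x : EE K) (b : K) :
    (DD x).coeff b = Polynomial.derivative (x.coeff b) + Polynomial.C b * x.coeff b := rfl

theorem EE_ext {x y : EE K} (h : ∀ b, x.coeff b = y.coeff b) : x = y :=
  AddMonoidAlgebra.coeff_injective (Finsupp.ext h)

theorem EE_add_coeff (x y : EE K) (b : K) : (x + y).coeff b = x.coeff b + y.coeff b := rfl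

open Classical in
theorem EE_single_coeff (a : K) (q : Polynomial K) (c : K) :
    (AddMonoidAlgebra.single a q : EE K).coeff c = if a = c then q else 0 :=
  Finsupp.single_apply

theorem DD_add (x y : EE K) : DD (x + y) = DD x + DD y := by
  apply EE_ext
  intro b
  rw [DD_coeff, EE_add_coeff, EE_add_coeff, DD_coeff, DD_coeff, Polynomial.derivative_add]
  ring

theorem DD_zero : DD (0 : EE K) = 0 := by
  apply EE_ext
  intro b
  rw [DD_coeff]
  simp

theorem DD_single (b : K) (q : Polynomial K) :
    DD (.single b q : EE K) = .single b (Polynomial.derivative q + Polynomial.C b * q) := by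
  classical
  apply EE_ext
  intro c
  rw [DD_coeff, EE_single_coeff, EE_single_coeff]
  split_ifs with h
  · rw [h]
  · simp

theorem DD_mul (x y : EE K) : DD (x * y) = DD x * y + x * DD y := by
  induction x using AddMonoidAlgebra.induction_linear with
  | zero => rw [zero_mul, DD_zero, zero_mul, zero_mul, add_zero]
  | add x x' hx hx' =>
    rw [add_mul, DD_add, hx, hx', DD_add]
    ring
  | single b q =>
    induction y using AddMonoidAlgebra.induction_linear with
    | zero => rw [mul_zero, DD_zero, mul_zero, mul_zero, add_zero]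
    | add y y' hy hy' =>
      rw [mul_add, DD_add, hy, hy', DD_add]
      ring
    | single c r =>
      rw [AddMonoidAlgebra.single_mul_single, DD_single, DD_single, DD_single,
        AddMonoidAlgebra.single_mul_single, AddMonoidAlgebra.single_mul_single,
        ← AddMonoidAlgebra.single_add, Polynomial.derivative_mul, Polynomial.C_add]
      congr 1
      ring

variable [CharZero K]

theorem derivative_ee (b : K) :
    PowerSeries.derivative K (ee b) = PowerSeries.C b * ee b := by
  ext n
  rw [PowerSeries.coeff_derivative]
  unfold ee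
  rw [PowerSeries.coeff_C_mul, PowerSeries.coeff_rescale, PowerSeries.coeff_rescale,
    PowerSeries.coeff_exp, PowerSeries.coeff_exp, pow_succ]
  have h1 : ((n.factorial : ℕ) : K) ≠ 0 := by
    exact_mod_cast n.factorial_ne_zero
  have h2 : ((n : K) + 1) ≠ 0 := by
    exact_mod_cast n.succ_ne_zero
  have e1 : (algebraMap ℚ K) (1 / ((n + 1).factorial : ℚ)) = 1 / (((n : K) + 1) * (n.factorial : K)) := by
    rw [Nat.factorial_succ]
    simp
  have e2 : (algebraMap ℚ K) (1 / (n.factorial : ℚ)) = 1 / (n.factorial : K) := by simp
  rw [e1, e2]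
  field_simp

theorem ii_single (b : K) (q : Polynomial K) :
    ii K (.single b q) = (q : PowerSeries K) * ee b := by
  unfold ii
  rw [AddMonoidAlgebra.liftNCRingHom_single]
  rfl

theorem ee_zero : ee (0 : K) = 1 := by
  unfold ee
  rw [PowerSeries.rescale_zero_apply]
  simp

theorem derivative_ii (x : EE K) : PowerSeries.derivative K (ii K x) = ii K (DD x) := by
  induction x using AddMonoidAlgebra.induction_linear with
  | zero => rw [DD_zero, map_zero, map_zero]
  | add x y hx hy => rw [map_add, map_add, hx, hy, DD_add, map_add]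
  | single b q =>
    rw [ii_single, DD_single, ii_single, Derivation.leibniz, derivative_ee,
      PowerSeries.derivative_coe]
    simp only [smul_eq_mul, Polynomial.coe_add, Polynomial.coe_mul, Polynomial.coe_C]
    ring

/-- the action of the derivation on the coefficient of `exp(c s)` -/
noncomputable def Lc (c : K) (q : Polynomial K) : Polynomial K :=
  Polynomial.derivative q + Polynomial.C c * q

omit [CharZero K] in
theorem Lc_inj {c : K} (hc : c ≠ 0) {q : Polynomial K} (h : Lc c q = 0) : q = 0 := by
  by_contra hq
  have h1 : Polynomial.derivative q = - (Polynomial.C c * q) := eq_neg_of_add_eq_zero_left h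
  have h2 := Polynomial.degree_derivative_lt hq
  rw [h1, Polynomial.degree_neg, Polynomial.degree_C_mul hc] at h2
  exact lt_irrefl _ h2

omit [CharZero K] in
theorem DD_iter_coeff (x : EE K) (m : ℕ) (c : K) :
    (DD^[m] x).coeff c = (Lc c)^[m] (x.coeff c) := by
  induction m with
  | zero => rfl
  | succ m ih => rw [Function.iterate_succ_apply', Function.iterate_succ_apply', DD_coeff, ih, Lc]

omit [CharZero K] in
theorem Lc_iter_zero (m : ℕ) (c : K) : (Lc c)^[m] (0 : Polynomial K) = 0 := by
  induction m with
  | zero => rfl
  | succ m ih =>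
    rw [Function.iterate_succ_apply', ih, Lc]
    simp

omit [CharZero K] in
theorem Lc_iter_inj {c : K} (hc : c ≠ 0) (m : ℕ) {q : Polynomial K} (h : (Lc c)^[m] q = 0) :
    q = 0 := by
  induction m with
  | zero => exact h
  | succ m ih =>
    rw [Function.iterate_succ_apply'] at h
    exact ih (Lc_inj hc h)

theorem ii_iter (x : EE K) (h : ii K x = 0) (m : ℕ) : ii K (DD^[m] x) = 0 := by
  induction m with
  | zero => exact h
  | succ m ih => rw [Function.iterate_succ_apply', ← derivative_ii, ih, map_zero]

theorem ii_ker (n : ℕ) : ∀ x : EE K, x.coeff.support.card ≤ n → ii K x = 0 → x = 0 := by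
  classical
  induction n with
  | zero =>
    intro x hx _
    have h1 : x.coeff.support = ∅ := Finset.card_eq_zero.1 (Nat.le_zero.1 hx)
    exact AddMonoidAlgebra.coeff_injective (Finsupp.support_eq_empty.1 h1)
  | succ n ih =>
    intro x hx hii
    by_contra hne
    have h0 : x.coeff ≠ 0 := fun h => hne (AddMonoidAlgebra.coeff_injective h)
    obtain ⟨b0, hb0⟩ := Finsupp.support_nonempty_iff.2 h0
    obtain ⟨x', hx'⟩ : ∃ x' : EE K, x' = .single (-b0) 1 * x := ⟨_, rfl⟩
    have hc' : ∀ c, x'.coeff c = x.coeff (b0 + c) := by
      intro c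
      rw [hx', AddMonoidAlgebra.coeff_single_mul_apply, neg_neg, one_mul]
    have hii' : ii K x' = 0 := by rw [hx', map_mul, hii, mul_zero]
    have hcard : x'.coeff.support.card ≤ n + 1 := by
      refine le_trans ?_ hx
      apply Finset.card_le_card_of_injOn (fun c => b0 + c)
      · intro c hc
        have hc1 : x'.coeff c ≠ 0 := Finsupp.mem_support_iff.1 hc
        rw [hc'] at hc1
        exact Finsupp.mem_support_iff.2 hc1
      · intro c _ d _ hcd
        exact add_left_cancel hcd
    have hq0 : x'.coeff 0 ≠ 0 := by
      rw [hc', add_zero]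
      exact Finsupp.mem_support_iff.1 hb0
    obtain ⟨m, hm⟩ : ∃ m : ℕ, m = (x'.coeff 0).natDegree + 1 := ⟨_, rfl⟩
    obtain ⟨y, hy⟩ : ∃ y : EE K, y = DD^[m] x' := ⟨_, rfl⟩
    have hy0 : y.coeff 0 = 0 := by
      rw [hy, DD_iter_coeff]
      have h1 : ∀ q : Polynomial K, Lc 0 q = Polynomial.derivative q := by
        intro q
        rw [Lc]
        simp
      have h2 : (Lc (0 : K)) = Polynomial.derivative := funext h1
      rw [h2]
      exact Polynomial.iterate_derivative_eq_zero (by omega)
    have hysub : y.coeff.support ⊆ x'.coeff.support.erase 0 := by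
      intro c hc
      have hc1 : y.coeff c ≠ 0 := Finsupp.mem_support_iff.1 hc
      refine Finset.mem_erase.2 ⟨fun h => hc1 (h ▸ hy0), Finsupp.mem_support_iff.2 fun h => ?_⟩
      apply hc1
      rw [hy, DD_iter_coeff, h, Lc_iter_zero]
    have hycard : y.coeff.support.card ≤ n := by
      have h1 := Finset.card_le_card hysub
      rw [Finset.card_erase_of_mem (Finsupp.mem_support_iff.2 hq0)] at h1
      omega
    have hyz : y = 0 := ih y hycard (hy ▸ ii_iter x' hii' m)
    have hx0 : ∀ c, c ≠ 0 → x'.coeff c = 0 := by
      intro c hc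
      apply Lc_iter_inj hc m
      rw [← DD_iter_coeff, ← hy, hyz]
      rfl
    have hx'' : x' = .single 0 (x'.coeff 0) := by
      apply EE_ext
      intro c
      rw [EE_single_coeff]
      split_ifs with h
      · rw [← h]
      · exact hx0 c fun h' => h h'.symm
    rw [hx'', ii_single, ee_zero, mul_one] at hii'
    have h3 := (Polynomial.coe_eq_zero_iff).1 hii'
    exact hq0 h3

end

/-- EE -/
theorem pf_EE : T_EE := by
  intro K _ _
  refine ⟨DD_add, DD_mul, derivative_ii, ?_, ?_, ?_, derivative_ee, ?_⟩
  · rw [injective_iff_map_eq_zero]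
    intro x hx
    exact ii_ker _ x le_rfl hx
  · intro b
    rw [ii_single]
    simp
  · intro c
    rw [ii_single, ee_zero, mul_one]
    simp
  · intro b
    unfold ee
    rw [← PowerSeries.coeff_zero_eq_constantCoeff_apply, PowerSeries.coeff_rescale, pow_zero,
      one_mul, PowerSeries.coeff_exp]
    simp

end Pool.Agent.H33.ZW
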