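import Pool.Agent.H16.ZW.Targets

/-! Module EVL: values of polynomials at scaled points. -/

open Filter Topology MvPolynomial

namespace Pool.Agent.H33.ZW

open Pool.Agent.H12.ZD Pool.Agent.H16.ZW

theorem prod_zpow_sum {F : Type} [Field F] {t : F} (ht : t ≠ 0) {ι : Type} (s : Finset ι)
    (k : ι → ℤ) : ∏ i ∈ s, t ^ k i = t ^ ∑ i ∈ s, k i := by
  classical
  induction s using Finset.induction_on with
  | empty => simp
  | insert i s hi ih => rw [Finset.prod_insert hi, Finset.sum_insert hi, ih, zpow_add₀ ht]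

theorem prod_scale {N : ℕ} (w : Fin N → ℤ) {t : Qb} (ht : t ≠ 0) (y : Fin N → Qb)
    (m : Fin N →₀ ℕ) : ∏ i, (t ^ w i * y i) ^ m i =
      t ^ (∑ j, (m j : ℤ) * w j) * ∏ i, y i ^ m i := by
  rw [← prod_zpow_sum ht, ← Finset.prod_mul_distrib]
  refine Finset.prod_congr rfl fun i _ => ?_
  rw [mul_pow, ← zpow_natCast, ← zpow_mul, mul_comm (w i)]

theorem v_zpow (p : Nat.Primes) (x : Qb) (n : ℤ) : v p (x ^ n) = v p x ^ n := by
  simp [v]

theorem v_prod (p : Nat.Primes) {ι : Type} (s : Finset ι) (x : ι → Qb) :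
    v p (∏ i ∈ s, x i) = ∏ i ∈ s, v p (x i) := by
  simp [v]

theorem v_mon_le (p : Nat.Primes) {N : ℕ} (y : Fin N → Qb) (hy : ∀ i, v p (y i) ≤ 1)
    (m : Fin N →₀ ℕ) : v p (∏ i, y i ^ m i) ≤ 1 := by
  rw [v_prod]
  refine Finset.prod_le_one (fun i _ => v_nonneg p _) fun i _ => ?_
  rw [v_pow]
  exact pow_le_one₀ (v_nonneg p _) (hy i)

theorem v_sub_mul {p : Nat.Primes} {a b c d : Qb} (ha : v p a ≤ 1) (hd : v p d ≤ 1)
    (h1 : v p (a - c) < 1) (h2 : v p (b - d) < 1) : v p (a * b - c * d) < 1 := by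
  have e : a * b - c * d = a * (b - d) + (a - c) * d := by ring
  rw [e]
  refine v_add_lt p ?_ ?_
  · rw [v_mul]
    calc v p a * v p (b - d) ≤ 1 * v p (b - d) :=
          mul_le_mul_of_nonneg_right ha (v_nonneg p _)
      _ < 1 := by rwa [one_mul]
  · rw [v_mul]
    calc v p (a - c) * v p d ≤ v p (a - c) * 1 := mul_le_mul_of_nonneg_left hd (v_nonneg p _)
      _ < 1 := by rwa [mul_one]

/-- EVL -/
theorem evl : T_EVL := by
  intro N w G a p t y ht
  refine ⟨fun hG => ?_, fun hG hc hy hvt => ?_, fun z hc hy hz => ⟨?_, fun hyz => ?_⟩⟩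
  · rw [eval_eq', eval_eq', Finset.mul_sum]
    refine Finset.sum_congr rfl fun m hm => ?_
    rw [prod_scale w ht, hG m hm]
    ring
  · have hvt0 : 0 < v p t := by linarith
    rw [eval_eq']
    refine v_sum_le p _ _ (zpow_nonneg hvt0.le _) fun m hm => ?_
    rw [prod_scale w ht, v_mul, v_mul, v_zpow]
    have h1 : v p t ^ (∑ j, (m j : ℤ) * w j) ≤ v p t ^ (a - 1) := by
      apply zpow_le_zpow_right₀ hvt
      have := hG m hm
      omega
    have h2 := v_mon_le p y hy m
    have h3 := hc m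
    have h4 : v p t ^ (∑ j, (m j : ℤ) * w j) * v p (∏ i, y i ^ m i) ≤ v p t ^ (a - 1) :=
      calc v p t ^ (∑ j, (m j : ℤ) * w j) * v p (∏ i, y i ^ m i)
          ≤ v p t ^ (a - 1) * 1 := by
            apply mul_le_mul h1 h2 (v_nonneg p _) (zpow_nonneg hvt0.le _)
        _ = _ := mul_one _
    calc v p (coeff m G) * (v p t ^ (∑ j, (m j : ℤ) * w j) * v p (∏ i, y i ^ m i))
        ≤ 1 * v p t ^ (a - 1) := by
          apply mul_le_mul h3 h4 _ zero_le_one
          exact mul_nonneg (zpow_nonneg hvt0.le _) (v_nonneg p _)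
      _ = _ := one_mul _
  · rw [eval_eq']
    refine v_sum_le p _ _ zero_le_one fun m _ => ?_
    rw [v_mul]
    exact mul_le_one₀ (hc m) (v_nonneg p _) (v_mon_le p y hy m)
  · rw [eval_eq', eval_eq', ← Finset.sum_sub_distrib]
    refine v_sum_lt p _ _ zero_lt_one fun m _ => ?_
    rw [← mul_sub, v_mul]
    have h1 : v p (∏ i, y i ^ m i - ∏ i, z i ^ m i) < 1 := by
      have key : ∀ s : Finset (Fin N), v p (∏ i ∈ s, y i ^ m i) ≤ 1 ∧
          v p (∏ i ∈ s, z i ^ m i) ≤ 1 ∧
          v p (∏ i ∈ s, y i ^ m i - ∏ i ∈ s, z i ^ m i) < 1 := by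
        intro s
        have hpw : ∀ (u : Fin N → Qb), (∀ i, v p (u i) ≤ 1) → ∀ i (n : ℕ),
            v p (u i ^ n) ≤ 1 := by
          intro u hu i n
          rw [v_pow]
          exact pow_le_one₀ (v_nonneg p _) (hu i)
        have hpr : ∀ (u : Fin N → Qb), (∀ i, v p (u i) ≤ 1) → v p (∏ i ∈ s, u i ^ m i) ≤ 1 := by
          intro u hu
          rw [v_prod]
          exact Finset.prod_le_one (fun i _ => v_nonneg p _) fun i _ => hpw u hu i _
        refine ⟨hpr y hy, hpr z hz, ?_⟩
        have hpd : ∀ i (n : ℕ), v p (y i ^ n - z i ^ n) < 1 := by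
          intro i n
          induction n with
          | zero => simp
          | succ n ih =>
            rw [pow_succ, pow_succ]
            exact v_sub_mul (hpw y hy i n) (hz i) ih (hyz i)
        induction s using Finset.induction_on with
        | empty => simp
        | insert i s hi ih =>
          rw [Finset.prod_insert hi, Finset.prod_insert hi]
          have hpr' : ∀ (u : Fin N → Qb), (∀ i, v p (u i) ≤ 1) →
              v p (∏ i ∈ s, u i ^ m i) ≤ 1 := by
            intro u hu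
            rw [v_prod]
            exact Finset.prod_le_one (fun i _ => v_nonneg p _) fun i _ => hpw u hu i _
          exact v_sub_mul (hpw y hy i _) (hpr' z hz) (hpd i _) (ih hpr')
      exact (key Finset.univ).2.2
    calc v p (coeff m G) * v p (∏ i, y i ^ m i - ∏ i, z i ^ m i)
        ≤ 1 * v p (∏ i, y i ^ m i - ∏ i, z i ^ m i) :=
          mul_le_mul_of_nonneg_right (hc m) (v_nonneg p _)
      _ < 1 := by rwa [one_mul]

end Pool.Agent.H33.ZW
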